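import Pool.Agent.H70.GS.Targets

/-!
# GS module BSU: few rows are sensitive
-/

set_option autoImplicit false

namespace Pool.Agent.H19.GS.BSU

open Finset Pool.Agent.H6.NB Pool.Agent.H70.OQ Pool.Agent.H70.GS

/-- Counting pairs by the second component. -/
theorem card_prod_filter {α β : Type} [Fintype α] [Fintype β] (P : α → β → Prop)
    [∀ a b, Decidable (P a b)] :
    (univ.filter fun p : α × β => P p.1 p.2).card = ∑ b, (univ.filter fun a => P a b).card := by
  simp only [Finset.card_filter]
  rw [Fintype.sum_prod_type, Finset.sum_comm]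

theorem bsu (h1 : T_CUB) (h2 : T_CLG) : T_BSU := by
  intro X Y _ _ _ _ S t d w r K f hf ht hw hK
  -- the function of the bits of the rows
  have hg : ∀ v : X → Y, Cl X S (d + 1 + 1) fun z => f (tbl z v) := by
    intro v
    have h := h2 (X × Y) X S t d S 0 f (fun p z => tbl z v p) le_rfl ht ?_ hf
    · have e : 0 + d + 2 = d + 1 + 1 := by omega
      rw [e] at h
      exact h
    · rintro ⟨x, y⟩
      by_cases hy : y = v x
      · right
        refine ⟨x, fun z => ?_⟩
        simp [tbl, hy]
      · left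
        refine ⟨false, fun z => ?_⟩
        simp [tbl, hy]
  have key : ∀ v : X → Y, ((univ.filter fun z : X → Bool => K < (univ.filter fun x =>
      f (tbl (flp z x) v) ≠ f (tbl z v)).card).card : ℝ) ≤
      2 / qw w ^ (d + 2) * (2 ^ Fintype.card X * (((Fintype.card X : ℝ) + 1) *
        ((S : ℝ) + 1) ^ (d + 2) * 2 / 2 ^ w + 1 / 4 ^ r)) := by
    intro v
    have h := h1 X (d + 1) S w r 1 K (fun z => f (tbl z v)) (fun _ z => f (tbl z v)) (hg v)
      (fun _ => hg v) hw le_rfl (by push_cast; linarith [hK])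
    have h0 : (univ.filter fun z : X → Bool => 1 < (univ.filter fun _ : X =>
        f (tbl z v) ≠ f (tbl z v)).card) = ∅ := by
      ext z
      simp
    rw [h0] at h
    simp only [card_empty, Nat.cast_zero, mul_zero, add_zero] at h
    exact h
  rw [card_prod_filter (fun (b : X → Bool) (v : X → Y) => K < (univ.filter fun x =>
    f (tbl (flp b x) v) ≠ f (tbl b v)).card)]
  push_cast
  calc ∑ v : X → Y, ((univ.filter fun z : X → Bool => K < (univ.filter fun x =>
        f (tbl (flp z x) v) ≠ f (tbl z v)).card).card : ℝ)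
      ≤ ∑ v : X → Y, 2 / qw w ^ (d + 2) * (2 ^ Fintype.card X * (((Fintype.card X : ℝ) + 1) *
        ((S : ℝ) + 1) ^ (d + 2) * 2 / 2 ^ w + 1 / 4 ^ r)) := Finset.sum_le_sum fun v _ => key v
    _ = 2 / qw w ^ (d + 2) * (((Fintype.card X : ℝ) + 1) * ((S : ℝ) + 1) ^ (d + 2) * 2 / 2 ^ w +
      1 / 4 ^ r) * Fintype.card ((X → Bool) × (X → Y)) := by
        rw [Finset.sum_const, Finset.card_univ, nsmul_eq_mul, Fintype.card_prod, Fintype.card_fun,
          Fintype.card_fun, Fintype.card_bool]
        push_cast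
        ring

end Pool.Agent.H19.GS.BSU
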