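import Pool.Agent.H70.GS.Targets

/-!
# GS module REV: the witnesses are not found
-/

set_option autoImplicit false

namespace Pool.Agent.H19.GS.REV

open Finset Pool.Agent.H6.NB Pool.Agent.H70.OQ Pool.Agent.H70.GS

/-- At most half of the bit vectors have few zeros. -/
theorem half {X : Type} [Fintype X] [DecidableEq X] :
    (univ.filter fun b : X → Bool => ¬ Fintype.card X ≤
      2 * (univ.filter fun x => b x = false).card).card * 2 ≤ Fintype.card (X → Bool) := by
  set A := univ.filter fun b : X → Bool => ¬ Fintype.card X ≤
      2 * (univ.filter fun x => b x = false).card with hA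
  -- the map which negates all bits sends `A` into its complement
  have hcomp : ∀ b : X → Bool, (univ.filter fun x => b x = false).card +
      (univ.filter fun x => (!b x) = false).card = Fintype.card X := by
    intro b
    have h := Finset.card_filter_add_card_filter_not (s := (univ : Finset X))
      (fun x => b x = false)
    rw [Finset.card_univ] at h
    rw [← h]
    congr 2
    ext x
    simp
  have hle : A.card ≤ (Aᶜ).card := by
    refine Finset.card_le_card_of_injOn (fun b x => !b x) ?_ ?_
    · intro b hb
      rw [Finset.mem_coe, hA, Finset.mem_filter] at hb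
      rw [Finset.mem_coe, Finset.mem_compl, hA, Finset.mem_filter]
      rintro ⟨_, h⟩
      have h2 := hcomp b
      have h1 := hb.2
      beta_reduce at h
      omega
    · intro b _ b' _ h
      funext x
      have := congrFun h x
      simpa using this
  have h2 : A.card + (Aᶜ).card = Fintype.card (X → Bool) := Finset.card_add_card_compl A
  omega

open Classical in
/-- Resampling of the entry at `x`. -/
theorem resample {X Y : Type} [Fintype X] [DecidableEq X] [Fintype Y] (x : X)
    (B : (X → Y) → Y → Prop) (hB : ∀ v y y', (B (Function.update v x y') y ↔ B v y)) :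
    (univ.filter fun v : X → Y => B v (v x)).card * Fintype.card Y =
      ∑ v : X → Y, (univ.filter fun y => B v y).card := by
  have e1 : (univ.filter fun v : X → Y => B v (v x)).card * Fintype.card Y =
      (univ.filter fun p : (X → Y) × Y => B p.1 (p.1 x)).card := by
    rw [Finset.card_filter, Finset.card_filter, Fintype.sum_prod_type, Finset.sum_mul]
    refine Finset.sum_congr rfl fun v _ => ?_
    by_cases hv : B v (v x)
    · simp [hv]
    · simp [hv]
  have e2 : ∑ v : X → Y, (univ.filter fun y => B v y).card =
      (univ.filter fun p : (X → Y) × Y => B p.1 p.2).card := by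
    rw [Finset.card_filter, Fintype.sum_prod_type]
    refine Finset.sum_congr rfl fun v _ => ?_
    rw [Finset.card_filter]
  rw [e1, e2]
  refine Finset.card_bij' (fun p _ => (Function.update p.1 x p.2, p.1 x))
    (fun p _ => (Function.update p.1 x p.2, p.1 x)) ?_ ?_ ?_ ?_
  · rintro ⟨v, y⟩ h
    simp only [mem_filter, mem_univ, true_and] at h ⊢
    exact (hB v (v x) y).2 h
  · rintro ⟨v, y⟩ h
    simp only [mem_filter, mem_univ, true_and] at h ⊢
    rw [Function.update_self]
    exact (hB v y y).2 h
  · rintro ⟨v, y⟩ _
    simp
  · rintro ⟨v, y⟩ _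
    simp

open Classical in
/-- The second event is rare. -/
theorem rare {X Y : Type} [Fintype X] [DecidableEq X] [Nonempty X] [Fintype Y] (τ : ℕ)
    (c : X → Prop) (B : X → (X → Y) → Y → Prop)
    (hB : ∀ x, c x → ∀ v y y', (B x (Function.update v x y') y ↔ B x v y))
    (hn : ∀ x v, c x → (univ.filter fun y => B x v y).card ≤ 576 * τ ^ 2)
    (hτ : 2 ^ 16 * τ ^ 2 ≤ Fintype.card Y) :
    (univ.filter fun v : X → Y => ¬ 16 * (univ.filter fun x => c x ∧ B x v (v x)).card ≤
      Fintype.card X).card * 4 ≤ Fintype.card (X → Y) := by
  set A := univ.filter fun v : X → Y => ¬ 16 * (univ.filter fun x => c x ∧ B x v (v x)).card ≤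
      Fintype.card X with hA
  rcases isEmpty_or_nonempty Y with hY | hY
  · have : IsEmpty (X → Y) := by
      obtain ⟨x⟩ := ‹Nonempty X›
      exact ⟨fun v => hY.elim (v x)⟩
    have : A = ∅ := by
      ext v
      exact (IsEmpty.false v).elim
    rw [this]
    simp
  have hN : 0 < Fintype.card X := Fintype.card_pos
  have hM : 0 < Fintype.card Y := Fintype.card_pos
  -- the sum of the numbers of bad rows
  have hsum : (∑ v : X → Y, (univ.filter fun x => c x ∧ B x v (v x)).card) * Fintype.card Y ≤
      Fintype.card X * (Fintype.card (X → Y) * (576 * τ ^ 2)) := by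
    have e : ∑ v : X → Y, (univ.filter fun x => c x ∧ B x v (v x)).card =
        ∑ x, (univ.filter fun v : X → Y => c x ∧ B x v (v x)).card := by
      simp only [Finset.card_filter]
      rw [Finset.sum_comm]
    rw [e, Finset.sum_mul]
    have hx : ∀ x ∈ (univ : Finset X), (univ.filter fun v : X → Y => c x ∧ B x v (v x)).card *
        Fintype.card Y ≤ Fintype.card (X → Y) * (576 * τ ^ 2) := by
      intro x _
      by_cases hc : c x
      · simp only [hc, true_and]
        rw [resample x (B x) (hB x hc)]
        calc ∑ v : X → Y, (univ.filter fun y => B x v y).card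
            ≤ ∑ _v : X → Y, 576 * τ ^ 2 := Finset.sum_le_sum fun v _ => hn x v hc
          _ = Fintype.card (X → Y) * (576 * τ ^ 2) := by
              rw [Finset.sum_const, Finset.card_univ, smul_eq_mul]
      · simp [hc]
    calc ∑ x, (univ.filter fun v : X → Y => c x ∧ B x v (v x)).card * Fintype.card Y
        ≤ ∑ _x : X, Fintype.card (X → Y) * (576 * τ ^ 2) := Finset.sum_le_sum hx
      _ = Fintype.card X * (Fintype.card (X → Y) * (576 * τ ^ 2)) := by
          rw [Finset.sum_const, Finset.card_univ, smul_eq_mul]
  -- Markov
  have hmk : A.card * Fintype.card X ≤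
      16 * ∑ v : X → Y, (univ.filter fun x => c x ∧ B x v (v x)).card := by
    calc A.card * Fintype.card X = ∑ _v ∈ A, Fintype.card X := by
          rw [Finset.sum_const, smul_eq_mul]
      _ ≤ ∑ v ∈ A, 16 * (univ.filter fun x => c x ∧ B x v (v x)).card := by
          refine Finset.sum_le_sum fun v hv => ?_
          rw [hA, Finset.mem_filter] at hv
          exact (not_le.1 hv.2).le
      _ ≤ ∑ v : X → Y, 16 * (univ.filter fun x => c x ∧ B x v (v x)).card :=
          Finset.sum_le_sum_of_subset (Finset.subset_univ _)
      _ = 16 * ∑ v : X → Y, (univ.filter fun x => c x ∧ B x v (v x)).card := by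
          rw [Finset.mul_sum]
  have hall : (A.card * 4) * (Fintype.card X * Fintype.card Y) ≤
      Fintype.card (X → Y) * (Fintype.card X * Fintype.card Y) := by
    calc (A.card * 4) * (Fintype.card X * Fintype.card Y)
        = 4 * ((A.card * Fintype.card X) * Fintype.card Y) := by ring
      _ ≤ 4 * ((16 * ∑ v : X → Y, (univ.filter fun x => c x ∧ B x v (v x)).card) *
          Fintype.card Y) := by gcongr
      _ = 64 * ((∑ v : X → Y, (univ.filter fun x => c x ∧ B x v (v x)).card) *
          Fintype.card Y) := by ring
      _ ≤ 64 * (Fintype.card X * (Fintype.card (X → Y) * (576 * τ ^ 2))) := by gcongr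
      _ = Fintype.card (X → Y) * (Fintype.card X * (36864 * τ ^ 2)) := by ring
      _ ≤ Fintype.card (X → Y) * (Fintype.card X * Fintype.card Y) := by
          gcongr
          refine le_trans ?_ hτ
          gcongr
          norm_num
  exact Nat.le_of_mul_le_mul_right hall (Nat.mul_pos hN hM)

theorem rev (h1 : T_BBC) : T_REV := by
  classical
  intro X Y _ _ _ _ _ G str Q τ hG hstr hT hτ
  -- the numbers of bad witnesses
  have hn : ∀ (b : X → Bool) (x : X) (v : X → Y), (univ.filter fun y =>
      (1 / 6 : ℝ) ≤ |(Q x).prob (Function.update (G b v) (str x y) true) -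
        (Q x).prob (G b v)|).card ≤ 576 * τ ^ 2 := by
    intro b x v
    have h := (h1 Y (Q x) (G b v) (fun y => Function.update (G b v) (str x y) true) 1 (1 / 6)
      (by norm_num) ?_).2
    · have h' : ((univ.filter fun y =>
          (1 / 6 : ℝ) ≤ |(Q x).prob (Function.update (G b v) (str x y) true) -
          (Q x).prob (G b v)|).card : ℝ) ≤ 576 * (τ : ℝ) ^ 2 := by
        refine le_trans ?_ (le_trans h ?_)
        · apply le_of_eq
          congr!
        · have hτ' : ((Q x).T : ℝ) ≤ τ := by exact_mod_cast hT x
          have h0 : (0 : ℝ) ≤ (Q x).T := Nat.cast_nonneg _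
          have : ((Q x).T : ℝ) ^ 2 ≤ (τ : ℝ) ^ 2 := by gcongr
          have e : (16 : ℝ) * ((Q x).T : ℝ) ^ 2 * ((1 : ℕ) : ℝ) / (1 / 6) ^ 2 =
              576 * ((Q x).T : ℝ) ^ 2 := by
            push_cast
            ring
          rw [e]
          linarith
      exact_mod_cast h'
    · intro i w _
      rw [Finset.card_le_one]
      intro y hy y' hy'
      simp only [mem_filter, mem_univ, true_and] at hy hy'
      have e1 : w = str x y := by
        by_contra hne
        exact hy (Function.update_of_ne hne _ _)
      have e2 : w = str x y' := by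
        by_contra hne
        exact hy' (Function.update_of_ne hne _ _)
      exact hstr x (e1.symm.trans e2)
  -- the two events
  have hsub : (univ.filter fun p : (X → Bool) × (X → Y) => ¬ Rv G str Q p) ⊆
      (univ.filter fun p : (X → Bool) × (X → Y) => ¬ Fintype.card X ≤
        2 * (univ.filter fun x => p.1 x = false).card) ∪
      (univ.filter fun p : (X → Bool) × (X → Y) => ¬ 16 * (univ.filter fun x => p.1 x = false ∧
        (1 / 6 : ℝ) ≤ |(Q x).prob (Function.update (G p.1 p.2) (str x (p.2 x)) true) -
        (Q x).prob (G p.1 p.2)|).card ≤ Fintype.card X) := by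
    intro p hp
    rw [Finset.mem_filter] at hp
    rw [Finset.mem_union, Finset.mem_filter, Finset.mem_filter]
    by_contra hcon
    rw [not_or] at hcon
    obtain ⟨c1, c2⟩ := hcon
    apply hp.2
    have c1' := not_not.1 (fun h => c1 ⟨mem_univ _, h⟩)
    have c2' := not_not.1 (fun h => c2 ⟨mem_univ _, h⟩)
    refine ⟨?_, ?_⟩
    · convert c1' using 3
    · convert c2' using 3
  have ha : (univ.filter fun p : (X → Bool) × (X → Y) => ¬ Fintype.card X ≤
        2 * (univ.filter fun x => p.1 x = false).card).card * 2 ≤
      Fintype.card ((X → Bool) × (X → Y)) := by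
    have e : (univ.filter fun p : (X → Bool) × (X → Y) => ¬ Fintype.card X ≤
        2 * (univ.filter fun x => p.1 x = false).card).card =
        (univ.filter fun b : X → Bool => ¬ Fintype.card X ≤
        2 * (univ.filter fun x => b x = false).card).card * Fintype.card (X → Y) := by
      rw [Finset.card_filter, Finset.card_filter, Fintype.sum_prod_type, Finset.sum_mul]
      refine Finset.sum_congr rfl fun b _ => ?_
      simp [Finset.sum_const, Finset.card_univ, mul_comm]
    rw [e, Fintype.card_prod]
    calc (univ.filter fun b : X → Bool => ¬ Fintype.card X ≤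
        2 * (univ.filter fun x => b x = false).card).card * Fintype.card (X → Y) * 2
        = ((univ.filter fun b : X → Bool => ¬ Fintype.card X ≤
        2 * (univ.filter fun x => b x = false).card).card * 2) * Fintype.card (X → Y) := by ring
      _ ≤ Fintype.card (X → Bool) * Fintype.card (X → Y) := by
          gcongr
          exact half
  have hb : (univ.filter fun p : (X → Bool) × (X → Y) => ¬ 16 * (univ.filter fun x =>
        p.1 x = false ∧
        (1 / 6 : ℝ) ≤ |(Q x).prob (Function.update (G p.1 p.2) (str x (p.2 x)) true) -
        (Q x).prob (G p.1 p.2)|).card ≤ Fintype.card X).card * 4 ≤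
      Fintype.card ((X → Bool) × (X → Y)) := by
    have e : (univ.filter fun p : (X → Bool) × (X → Y) => ¬ 16 * (univ.filter fun x =>
        p.1 x = false ∧
        (1 / 6 : ℝ) ≤ |(Q x).prob (Function.update (G p.1 p.2) (str x (p.2 x)) true) -
        (Q x).prob (G p.1 p.2)|).card ≤ Fintype.card X).card =
        ∑ b : X → Bool, (univ.filter fun v : X → Y => ¬ 16 * (univ.filter fun x =>
        b x = false ∧
        (1 / 6 : ℝ) ≤ |(Q x).prob (Function.update (G b v) (str x (v x)) true) -
        (Q x).prob (G b v)|).card ≤ Fintype.card X).card := by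
      rw [Finset.card_filter, Fintype.sum_prod_type]
      refine Finset.sum_congr rfl fun b _ => ?_
      rw [Finset.card_filter]
    rw [e, Fintype.card_prod, Finset.sum_mul]
    calc ∑ b : X → Bool, (univ.filter fun v : X → Y => ¬ 16 * (univ.filter fun x =>
        b x = false ∧
        (1 / 6 : ℝ) ≤ |(Q x).prob (Function.update (G b v) (str x (v x)) true) -
        (Q x).prob (G b v)|).card ≤ Fintype.card X).card * 4
        ≤ ∑ _b : X → Bool, Fintype.card (X → Y) := by
          refine Finset.sum_le_sum fun b _ => ?_
          have hr := rare τ (fun x => b x = false) (fun x v y =>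
            (1 / 6 : ℝ) ≤ |(Q x).prob (Function.update (G b v) (str x y) true) -
              (Q x).prob (G b v)|)
            (fun x hx v y y' => by rw [hG b v x y' hx])
            (fun x v _ => le_trans (le_of_eq (by congr!)) (hn b x v)) hτ
          exact le_trans (le_of_eq (by congr!)) hr
      _ = Fintype.card (X → Bool) * Fintype.card (X → Y) := by
          rw [Finset.sum_const, Finset.card_univ, smul_eq_mul]
  have hcard := (Finset.card_le_card hsub).trans (Finset.card_union_le _ _)
  have hgoal : (univ.filter fun p : (X → Bool) × (X → Y) => ¬ Rv G str Q p).card * 4 ≤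
      3 * Fintype.card ((X → Bool) × (X → Y)) := by omega
  convert hgoal using 3

end Pool.Agent.H19.GS.REV
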